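import Pool.Agent.H3.GP.Defs
import Pool.Agent.H80.GP.FDefs
import Pool.Agent.H80.M87.G21

/-!
# MP_87ed0a_ag: a nongrid geproci set never specialises to a grid

Let `Z t`, `t ∈ T`, be a continuous family of geproci sets of `N` points of complex projective
3-space, `T` any topological space (for instance a smooth complex curve with its classical
topology).  If `Z t₀` is an `(a, b)`-grid, then `Z t` is an `(a, b)`-grid for all `t` near `t₀`.
In particular, if `t₀` is not isolated, no cofinite set of parameters consists of nongrids.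
-/

open Filter Topology Pool.Agent.H3.GP GP80

namespace Pool.Agent.Results.MP_87ed0a_ag.GridNeighbourhood

theorem result {T : Type*} [TopologicalSpace T] [T1Space T] (N : ℕ)
    (Z : T → Set (Projectivization ℂ (Fin 4 → ℂ))) (hZ : IsFamily N Z)
    (hgeproci : ∀ t, ∃ c d, IsGeproci c d (Z t)) (t₀ : T) (a b : ℕ) (hgrid : IsGrid a b (Z t₀)) :
    (∀ᶠ t in 𝓝 t₀, IsGrid a b (Z t)) ∧
      ((𝓝[≠] t₀).NeBot → ∀ U : Set T, Uᶜ.Finite → ∃ t ∈ U, IsGrid a b (Z t)) := by
  have h1 : ∀ᶠ t in 𝓝 t₀, IsGrid a b (Z t) :=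
    (near_family hZ hgrid).mono fun t ht => by
      obtain ⟨c, d, hcd⟩ := hgeproci t
      exact ht c d hcd
  refine ⟨h1, fun hne U hU => ?_⟩
  have h2 : ∀ᶠ t in 𝓝[≠] t₀, IsGrid a b (Z t) := h1.filter_mono nhdsWithin_le_nhds
  have h3 : ∀ᶠ t in 𝓝[≠] t₀, t ∈ U := by
    have h4 : (Uᶜ \ {t₀}).Finite := hU.subset Set.diff_subset
    have h5 : (Uᶜ \ {t₀})ᶜ ∈ 𝓝 t₀ := h4.isClosed.isOpen_compl.mem_nhds (by simp)
    rw [eventually_nhdsWithin_iff]
    filter_upwards [h5] with t ht hne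
    by_contra hno
    exact ht ⟨hno, hne⟩
  obtain ⟨t, ht1, ht2⟩ := (h2.and h3).exists
  exact ⟨t, ht2, ht1⟩

end Pool.Agent.Results.MP_87ed0a_ag.GridNeighbourhood
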